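import Mathlib
import Pool.Agent.H7.NC.Compr
import Pool.Agent.H7.NC.Rep
import Pool.Agent.H7.NC.Quot

/-!
# Every *-regular ring lies in the variety generated by the artinian *-regular rings
-/

namespace Pool.Agent.Results.MP_b20f23_al.AllStarRegular

universe u

/-- A *-regular ring: a von Neumann regular ring with proper involution. -/
def IsStarRegular (R : Type u) [Ring R] [StarRing R] : Prop :=
  (∀ a : R, ∃ x : R, a * x * a = a) ∧ ∀ a : R, star a * a = 0 → a = 0

/-- The four equations characterising the Moore-Penrose inverse. -/
def IsMoorePenrose {R : Type u} [Ring R] [StarRing R] (a x : R) : Prop :=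
  a * x * a = a ∧ x * a * x = x ∧ star (a * x) = a * x ∧ star (x * a) = x * a

open Classical in
/-- The Moore-Penrose inverse of `a` (with value `0` if there is none). -/
noncomputable def mp {R : Type u} [Ring R] [StarRing R] (a : R) : R :=
  if h : ∃ x, IsMoorePenrose a x then h.choose else 0

/-- In a *-regular ring, `mp a` is the one and only Moore-Penrose inverse of `a`. -/
theorem mp_spec {R : Type u} [Ring R] [StarRing R] (hR : IsStarRegular R) (a : R) :
    IsMoorePenrose a (mp a) ∧ ∀ x, IsMoorePenrose a x → x = mp a := by
  have h : ∃ x, IsMoorePenrose a x := Pool.Agent.H7.NC.exists_isMP hR.1 hR.2 a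
  have h1 : IsMoorePenrose a (mp a) := by
    unfold mp
    rw [dif_pos h]
    exact h.choose_spec
  exact ⟨h1, fun x hx => Pool.Agent.H7.NC.IsMP.unique hx h1⟩

/-- Terms in the signature of *-regular rings. -/
inductive Term : Type
  | var : ℕ → Term
  | zero : Term
  | one : Term
  | add : Term → Term → Term
  | neg : Term → Term
  | mul : Term → Term → Term
  | star : Term → Term
  | mp : Term → Term

/-- The value of a term in a *-ring under an assignment of the variables. -/
noncomputable def Term.eval {R : Type u} [Ring R] [StarRing R] (v : ℕ → R) : Term → R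
  | Term.var n => v n
  | Term.zero => 0
  | Term.one => 1
  | Term.add s t => s.eval v + t.eval v
  | Term.neg s => - s.eval v
  | Term.mul s t => s.eval v * t.eval v
  | Term.star s => Star.star (s.eval v)
  | Term.mp s => AllStarRegular.mp (s.eval v)

/-- The identity `s = t` holds in `R`. -/
def Holds (R : Type u) [Ring R] [StarRing R] (s t : Term) : Prop :=
  ∀ v : ℕ → R, s.eval v = t.eval v

/-- `R` satisfies every identity which holds in all artinian *-regular rings. -/
def InVariety (R : Type u) [Ring R] [StarRing R] : Prop :=
  ∀ s t : Term, (∀ (S : Type u) [Ring S] [StarRing S], IsArtinianRing S → IsStarRegular S →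
    Holds S s t) → Holds R s t

open Pool.Agent.H7.NC Filter

section

variable {D V R : Type u} [DivisionRing D] [StarRing D] [AddCommGroup V] [Module D V]
  [Ring R] [StarRing R] {H : HForm D V}

theorem BU_starRegular (U : FS D V) : IsStarRegular (H.BU U) :=
  ⟨(H.restrict U.1).adj_regular, (H.restrict U.1).adj_proper⟩

theorem BU_artinian (U : FS D V) : IsArtinianRing (H.BU U) := (H.restrict U.1).adj_artinian

theorem cv_eval (hR : IsStarRegular R) (g : R →+* H.adj) (hg : ∀ x, g (star x) = star (g x))
    (v : ℕ → R) (x : ℕ → ∀ U : FS D V, H.BU U) (hx : ∀ n, H.Cv (x n) (g (v n))) (t : Term) :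
    H.Cv (fun U => t.eval (fun n => x n U)) (g (t.eval v)) := by
  induction t with
  | var n => exact hx n
  | zero =>
    simp only [Term.eval, map_zero]
    exact HForm.Cv.zero
  | one =>
    simp only [Term.eval, map_one]
    exact HForm.Cv.one
  | add s t hs ht =>
    simp only [Term.eval, map_add]
    exact hs.add ht
  | neg s hs =>
    simp only [Term.eval, map_neg]
    exact hs.neg
  | mul s t hs ht =>
    simp only [Term.eval, map_mul]
    exact hs.mul ht
  | star s hs =>
    simp only [Term.eval, hg]
    exact hs.star
  | mp s hs =>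
    simp only [Term.eval]
    refine hs.mp (fun U => (mp_spec (BU_starRegular U) _).1) ?_
    exact IsMP.map g hg (mp_spec hR _).1

end

/-- **Every *-regular ring lies in the variety generated by the artinian *-regular rings.** -/
theorem result : ∀ (R : Type u) [Ring R] [StarRing R], IsStarRegular R → InVariety R := by
  intro R _ _ hR s t hst v
  by_contra hne
  obtain ⟨Q, i1, i2, k, i3, i4, f, hf, hpr, hlin, hd⟩ :=
    exists_quotient R hR.1 hR.2 (s.eval v - t.eval v) (sub_ne_zero.2 hne)
  obtain ⟨D, V, j1, j2, j3, j4, H, g, hg, hinj⟩ := exists_rep k Q hlin hpr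
  have hgf : ∀ x, (g.comp f) (star x) = star ((g.comp f) x) := by
    intro x
    rw [RingHom.comp_apply, RingHom.comp_apply, hf, hg]
  have h1 := cv_eval hR (g.comp f) hgf v (fun n => H.cmp ((g.comp f) (v n)))
    (fun n => HForm.cmp_cv _) s
  have h2 := cv_eval hR (g.comp f) hgf v (fun n => H.cmp ((g.comp f) (v n)))
    (fun n => HForm.cmp_cv _) t
  have h3 : (fun U => s.eval (fun n => H.cmp ((g.comp f) (v n)) U)) =
      fun U : FS D V => t.eval (fun n => H.cmp ((g.comp f) (v n)) U) := by
    funext U
    exact hst (H.BU U) (BU_artinian U) (BU_starRegular U) _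
  rw [h3] at h1
  have h4 := h1.unique h2
  apply hd
  apply hinj
  rw [map_zero, map_sub, map_sub, sub_eq_zero]
  exact h4

end Pool.Agent.Results.MP_b20f23_al.AllStarRegular
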